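import Mathlib
import Pool.Agent.Lib.MP_31c440_gt.Main

/-!
# The virtualisation conjecture for closed braids with a fixed number of strands

`BraidGroup n` is Artin's braid group on `n + 1` strands, `VirtGroup n` is the group of virtual
braids on `n + 1` strands modulo virtualisation and `incl n` is the natural map.  The closures of
`incl n a` and `incl n b` are related by generalised Reidemeister moves and virtualisations through
closed virtual braids on `n + 1` strands exactly if `incl n a` and `incl n b` are conjugate.
-/

namespace Pool.Agent.Results.MP_31c440_gt.ClosedBraids

open Pool.Agent.Lib.MP_31c440_gt

/-- Two classical braids are conjugate in the virtual braid group modulo virtualisation if and only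
if they are conjugate in the braid group. -/
theorem result (n : ℕ) (a b : BraidGroup n) : IsConj (incl n a) (incl n b) ↔ IsConj a b :=
  ⟨conj_of_conj a b, fun h => (incl n).map_isConj h⟩

end Pool.Agent.Results.MP_31c440_gt.ClosedBraids
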