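import Mathlib
import Pool.Agent.Lib.MP_31c440_gt.H28.Poly

/-!
# Virtualisation preserves the colour-two Jones polynomial of classical links

If two classical link diagrams are related by planar isotopies, generalised Reidemeister moves and
virtualisations (through arbitrary virtual diagrams), then they have the same colour-two Jones
polynomial, that is, the same Kauffman bracket of the two-cable with Jones-Wenzl idempotents, in
the same normalisation in which their Kauffman brackets agree.
-/

namespace Pool.Agent.Results.MP_31c440_gt.ColourTwoJones

open Pool.Agent.Lib.MP_31c440_gt.H23 Pool.Agent.Lib.MP_31c440_gt.H28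

/-- Classical diagrams related by generalised Reidemeister moves and virtualisations have the same
colour-two Jones polynomial: for one integer `k` (the difference of the framings) the Kauffman
brackets differ by the factor `(-A³)ᵏ` and the colour-two polynomials by the factor `A⁸ᵏ`. -/
theorem result (D D' : Diagram) (hD : D.Classical) (hD' : D'.Classical) (h : D.Related D') :
    ∃ k : ℤ, ∀ A : ℂ, A ≠ 0 → A ^ 4 ≠ -1 →
      bracket A D' = (-(A ^ 3)) ^ k * bracket A D ∧
      colourTwo A D' = A ^ (8 * k) * colourTwo A D :=
  invariance hD hD' h

end Pool.Agent.Results.MP_31c440_gt.ColourTwoJones
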