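import Mathlib
import Pool.Agent.Lib.MP_31c440_gt.H23.Example

/-!
# Virtualisation preserves the Fox colourings of classical links

If two classical link diagrams are related by planar isotopies, generalised Reidemeister moves and
virtualisations (through arbitrary virtual diagrams), then they have the same number of Fox
colourings in every finite abelian group.  In particular `8_9` and `4_1 # 4_1`, which have the same
Jones polynomial and the same Khovanov homology, are not related.
-/

namespace Pool.Agent.Results.MP_31c440_gt.FoxColourings

open Pool.Agent.Lib.MP_31c440_gt.H23

universe u

/-- Classical diagrams related by generalised Reidemeister moves and virtualisations have the same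
number of Fox colourings in every finite abelian group; `8_9` and `4_1 # 4_1` are not related. -/
theorem result :
    (∀ D D' : Diagram, D.Classical → D'.Classical → D.Related D' →
      ∀ (M : Type u) [AddCommGroup M] [Finite M], D.foxColourings M = D'.foxColourings M) ∧
    (knot89.Classical ∧ knot41sum.Classical ∧ ¬ knot89.Related knot41sum) := by
  refine ⟨fun D D' hD hD' h M _ _ => foxColourings_eq hD hD' h M,
    knot89_classical, knot41sum_classical, fun h => ?_⟩
  have h5 := foxColourings_eq knot89_classical knot41sum_classical h (ZMod 5)
  rw [knot89_five, knot41sum_five] at h5
  exact absurd h5 (by decide)

end Pool.Agent.Results.MP_31c440_gt.FoxColourings
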