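import Mathlib
import Pool.Agent.Lib.MP_31c440_gt.HV.S9_Final

/-!
# Virtualisation preserves the HOMFLY polynomial of classical links

If two classical links, given as closed braids, are related by generalised Reidemeister moves and
virtualisations (through arbitrary oriented virtual diagrams), then they have the same HOMFLY
polynomial.
-/

namespace Pool.Agent.Results.MP_31c440_gt.HomflyPolynomial

open Pool.Agent.Lib.MP_31c440_gt.HV

/-- Closed braids which are related by generalised Reidemeister moves and virtualisations have the
same HOMFLY polynomial: every function of HOMFLY type, over every commutative ring and for all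
units `a` and `z`, takes the same value at them. -/
theorem result {R : Type*} [CommRing R] (a z : Rˣ) (P : ℕ → BraidWord → R)
    (hP : IsHomfly a z P) (m n : ℕ) (hm : 0 < m) (hn : 0 < n) (x y : BraidWord)
    (hx : ValidWord m x) (hy : ValidWord n y) (h : Related (closure m x) (closure n y)) :
    P m x = P n y :=
  homfly_virtualisation a z P hP m n hm hn x y hx hy h

end Pool.Agent.Results.MP_31c440_gt.HomflyPolynomial
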